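import Mathlib

open Filter Topology
open scoped ENNReal

noncomputable section

namespace Pool.Agent.Results.MP_6f70ff_gt.SubScale

/-- `N` is a `k`-net of `G`: a set of vertices, maximal under inclusion, whose distinct elements
are at distance at least `k`. -/
def IsNet {V : Type*} (G : SimpleGraph V) (k : ℕ) (N : Set V) : Prop :=
  Maximal (fun M : Set V => ∀ u ∈ M, ∀ v ∈ M, u ≠ v → k ≤ G.dist u v) N

/-- The `k`-net graph on `N`: distinct elements of `N` are adjacent if their distance in `G` is at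
most `2k`. -/
def netGraph {V : Type*} (G : SimpleGraph V) (k : ℕ) (N : Set V) : SimpleGraph N where
  Adj u v := 0 < G.dist (u : V) v ∧ G.dist (u : V) v ≤ 2 * k
  symm := ⟨fun u v h => by rwa [G.dist_comm] at h⟩
  loopless := ⟨fun u h => by simp at h⟩

/-- `f` is a `C`-rough isometry from `(V(G), d_G)` to `(V(H), d_H)`. -/
structure IsRoughIsometry {X Y : Type*} (G : SimpleGraph X) (H : SimpleGraph Y) (C : ℝ)
    (f : X → Y) : Prop where
  lower : ∀ x y, C⁻¹ * (H.dist (f x) (f y) : ℝ) - C ≤ (G.dist x y : ℝ)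
  upper : ∀ x y, (G.dist x y : ℝ) ≤ C * (H.dist (f x) (f y) : ℝ) + C
  dense : ∀ y, ∃ x, (H.dist (f x) y : ℝ) < C

/-- The infimum of all `C > 0` for which there is a `C`-rough isometry `V(G) → V(H)`
(`∞` if there is none). -/
def roughConst {X Y : Type*} (G : SimpleGraph X) (H : SimpleGraph Y) : ℝ≥0∞ :=
  ⨅ (C : ℝ) (_ : 0 < C) (_ : ∃ f : X → Y, IsRoughIsometry G H C f), ENNReal.ofReal C

/-- Infinite, connected, locally finite, vertex transitive. -/
structure IsTransitiveGraph {V : Type*} (G : SimpleGraph V) : Prop where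
  infinite : Infinite V
  connected : G.Connected
  locallyFinite : ∀ v, (G.neighborSet v).Finite
  transitive : ∀ u v, ∃ φ : G ≃g G, φ u = v

/-- `C_k → 1` for every choice of the `k`-nets. -/
def SubScaleInvariant {V : Type*} (G : SimpleGraph V) : Prop :=
  ∀ N : ℕ → Set V, (∀ k, 1 ≤ k → IsNet G k (N k)) →
    Tendsto (fun k => roughConst G (netGraph G k (N k))) atTop (𝓝 1)

/-- The ball of (real) radius `r` about `v`. -/
def gball {V : Type*} (G : SimpleGraph V) (v : V) (r : ℝ) : Set V := {u | (G.dist v u : ℝ) ≤ r}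

/-- Volume doubling. -/
def VolumeDoubling {V : Type*} (G : SimpleGraph V) : Prop :=
  ∃ C : ℝ, 0 < C ∧ ∀ (v : V) (r : ℝ), 0 < r → (gball G v (2 * r)).Finite ∧
    ((gball G v (2 * r)).ncard : ℝ) ≤ C * ((gball G v r).ncard : ℝ)

/-- The bi-infinite path. -/
def zGraph : SimpleGraph ℤ where
  Adj x y := |x - y| = 1
  symm := ⟨fun x y h => by rwa [abs_sub_comm] at h⟩
  loopless := ⟨fun x h => by simp at h⟩

/-! ### Nets -/

section nets

variable {V : Type*} {G : SimpleGraph V} {k : ℕ} {N : Set V}

theorem IsNet.cover (hN : IsNet G k N) (hk : 1 ≤ k) (x : V) : ∃ n ∈ N, G.dist x n < k := by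
  by_contra hcon
  push Not at hcon
  have h1 : ∀ u ∈ insert x N, ∀ v ∈ insert x N, u ≠ v → k ≤ G.dist u v := by
    intro u hu v hv huv
    rcases hu with rfl | hu <;> rcases hv with rfl | hv
    · exact absurd rfl huv
    · exact hcon v hv
    · rw [G.dist_comm]; exact hcon u hu
    · exact hN.1 u hu v hv huv
  have h2 := hN.2 h1 (Set.subset_insert x N) (Set.mem_insert x N)
  have h3 := hcon x h2
  rw [G.dist_self] at h3
  omega

theorem exists_isNet (G : SimpleGraph V) (k : ℕ) : ∃ N : Set V, IsNet G k N := by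
  obtain ⟨N, hN⟩ := zorn_subset {M : Set V | ∀ u ∈ M, ∀ v ∈ M, u ≠ v → k ≤ G.dist u v} (by
    intro c hc hchain
    refine ⟨⋃₀ c, ?_, fun s hs => Set.subset_sUnion_of_mem hs⟩
    rintro u ⟨s, hs, hus⟩ v ⟨t, ht, hvt⟩ huv
    rcases hchain.total hs ht with h | h
    · exact hc ht u (h hus) v hvt huv
    · exact hc hs u hus v (h hvt) huv)
  exact ⟨N, hN⟩

/-- A vertex within `2r` of a net point `u` is within `k - 1` of a net point that can be reached
from `u` in `r` steps. -/
theorem reach (hG : G.Connected) (hN : IsNet G k N) (hk : 1 ≤ k) (u : N) (r : ℕ) :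
    ∀ x : V, G.dist (u : V) x ≤ 2 * r → ∃ n : N, G.dist x n ≤ k - 1 ∧
      ∃ p : (netGraph G k N).Walk u n, p.length ≤ r := by
  induction r with
  | zero =>
    intro x hx
    have h1 : (u : V) = x := by
      have : G.dist (u : V) x = 0 := by omega
      exact hG.dist_eq_zero_iff.1 this
    subst h1
    refine ⟨u, by simp, SimpleGraph.Walk.nil, by simp⟩
  | succ r ih =>
    intro x hx
    -- a vertex `x'` two steps closer
    obtain ⟨x', hx1, hx2⟩ : ∃ x', G.dist (u : V) x' ≤ 2 * r ∧ G.dist x' x ≤ 2 := by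
      obtain ⟨p, hp⟩ := hG.exists_walk_length_eq_dist (u : V) x
      refine ⟨p.getVert (2 * r), ?_, ?_⟩
      · refine (SimpleGraph.dist_le (p.take (2 * r))).trans ?_
        rw [SimpleGraph.Walk.take_length]
        exact min_le_left _ _
      · refine (SimpleGraph.dist_le (p.drop (2 * r))).trans ?_
        rw [SimpleGraph.Walk.drop_length]
        omega
    obtain ⟨n', hn1, p, hp⟩ := ih x' hx1
    obtain ⟨n, hn, hn2⟩ := hN.cover hk x
    refine ⟨⟨n, hn⟩, by simp only; omega, ?_⟩
    have h3 : G.dist (n' : V) n ≤ 2 * k := by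
      have h4 := hG.dist_triangle (u := (n' : V)) (v := x') (w := n)
      have h5 := hG.dist_triangle (u := x') (v := x) (w := n)
      rw [G.dist_comm (u := (n' : V)) (v := x')] at h4
      omega
    by_cases heq : n' = ⟨n, hn⟩
    · subst heq
      exact ⟨p, by omega⟩
    · have hadj : (netGraph G k N).Adj n' ⟨n, hn⟩ := by
        refine ⟨?_, h3⟩
        apply hG.pos_dist_of_ne
        intro h
        exact heq (Subtype.ext h)
      refine ⟨p.append (SimpleGraph.Walk.cons hadj SimpleGraph.Walk.nil), ?_⟩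
      rw [SimpleGraph.Walk.length_append]
      simp
      exact hp

theorem netGraph_connected (hG : G.Connected) (hN : IsNet G k N) (hk : 1 ≤ k) :
    (netGraph G k N).Connected := by
  obtain ⟨x⟩ := hG.nonempty
  obtain ⟨n, hn, -⟩ := hN.cover hk x
  have : Nonempty N := ⟨⟨n, hn⟩⟩
  refine ⟨fun u v => ?_⟩
  obtain ⟨n, h1, p, -⟩ := reach hG hN hk u (G.dist (u : V) v) v (by omega)
  have h2 : n = v := by
    by_contra hne
    have := hN.1 (v : V) v.2 n n.2 (fun h => hne (Subtype.ext h).symm)
    omega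
  subst h2
  exact ⟨p⟩

end nets

/-! ### Volume -/

section volume

variable {V : Type*} {G : SimpleGraph V}

/-- Ball of natural radius. -/
def nb {V : Type*} (G : SimpleGraph V) (v : V) (n : ℕ) : Set V := {u | G.dist v u ≤ n}

theorem nb_finite (hG : G.Connected) (hf : ∀ v, (G.neighborSet v).Finite) (v : V) (n : ℕ) :
    (nb G v n).Finite := by
  induction n with
  | zero =>
    apply (Set.finite_singleton v).subset
    intro u hu
    have : G.dist v u = 0 := by
      have : G.dist v u ≤ 0 := hu
      omega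
    exact (hG.dist_eq_zero_iff.1 this).symm
  | succ n ih =>
    apply (ih.union (ih.biUnion fun u _ => hf u)).subset
    intro u hu
    have hu : G.dist v u ≤ n + 1 := hu
    by_cases h : G.dist v u ≤ n
    · exact Or.inl h
    · right
      obtain ⟨p, hp⟩ := hG.exists_walk_length_eq_dist v u
      have hlen : p.length = n + 1 := by omega
      have hadj := p.adj_getVert_succ (i := n) (by omega)
      rw [← hlen, p.getVert_length] at hadj
      refine Set.mem_biUnion (x := p.getVert n) ?_ hadj
      change G.dist v (p.getVert n) ≤ n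
      refine (SimpleGraph.dist_le (p.take n)).trans ?_
      rw [SimpleGraph.Walk.take_length]
      exact min_le_left _ _

theorem iso_dist (φ : G ≃g G) (hG : G.Connected) (u v : V) : G.dist (φ u) (φ v) = G.dist u v := by
  have key : ∀ (ψ : G ≃g G) (a b : V), G.dist (ψ a) (ψ b) ≤ G.dist a b := by
    intro ψ a b
    obtain ⟨p, hp⟩ := hG.exists_walk_length_eq_dist a b
    have := SimpleGraph.dist_le (p.map ψ.toHom)
    rw [SimpleGraph.Walk.length_map, hp] at this
    exact this
  apply le_antisymm (key φ u v)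
  have := key φ.symm (φ u) (φ v)
  simpa using this

theorem ncard_nb_eq (hG : IsTransitiveGraph G) (u v : V) (n : ℕ) :
    (nb G u n).ncard = (nb G v n).ncard := by
  obtain ⟨φ, hφ⟩ := hG.transitive u v
  have h1 : nb G v n = φ '' nb G u n := by
    ext x
    constructor
    · intro hx
      refine ⟨φ.symm x, ?_, by simp⟩
      change G.dist u (φ.symm x) ≤ n
      rw [← iso_dist φ hG.connected, hφ]
      have hx' : G.dist v x ≤ n := hx
      simpa using hx'
    · rintro ⟨y, hy, rfl⟩
      change G.dist v (φ y) ≤ n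
      rw [← hφ, iso_dist φ hG.connected]
      exact hy
  rw [h1, Set.ncard_image_of_injective _ φ.injective]

theorem nb_mono (v : V) {m n : ℕ} (h : m ≤ n) : nb G v m ⊆ nb G v n := fun _ hu => le_trans hu h

theorem ncard_nb_pos (hG : IsTransitiveGraph G) (v : V) (n : ℕ) : 1 ≤ (nb G v n).ncard := by
  have h1 : (nb G v n).Nonempty := ⟨v, by change G.dist v v ≤ n; simp⟩
  exact (Set.ncard_pos (nb_finite hG.connected hG.locallyFinite v n)).2 h1

theorem ncard_nb_mono (hG : IsTransitiveGraph G) (v : V) {m n : ℕ} (h : m ≤ n) :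
    (nb G v m).ncard ≤ (nb G v n).ncard :=
  Set.ncard_le_ncard (nb_mono v h) (nb_finite hG.connected hG.locallyFinite v n)

/-- A union bound. -/
theorem ncard_biUnion_le' {α β : Type*} {s : Set α} (hs : s.Finite) (f : α → Set β) {m : ℕ}
    (hf : ∀ a ∈ s, (f a).Finite ∧ (f a).ncard ≤ m) :
    (⋃ a ∈ s, f a).Finite ∧ (⋃ a ∈ s, f a).ncard ≤ s.ncard * m := by
  induction s, hs using Set.Finite.induction_on with
  | empty => simp
  | @insert a s has hs ih =>
    obtain ⟨h1, h2⟩ := ih fun b hb => hf b (Set.mem_insert_of_mem a hb)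
    obtain ⟨h3, h4⟩ := hf a (Set.mem_insert a s)
    rw [Set.biUnion_insert]
    refine ⟨h3.union h1, (Set.ncard_union_le _ _).trans ?_⟩
    rw [Set.ncard_insert_of_notMem has hs]
    nlinarith

/-- Comparison of volumes: the heart of the matter. -/
theorem volume_step (hG : IsTransitiveGraph G) {k : ℕ} {N : Set V} (hN : IsNet G k N)
    (hk : 1 ≤ k) {C : ℝ} (hC : 0 < C) (hC2 : C < 2) {f : V → N}
    (hf : IsRoughIsometry G (netGraph G k N) C f) (v : V) (r : ℕ) :
    (nb G v (2 * r)).ncard ≤
      ((nb G v (2 * k)).ncard * (nb G v (k - 1)).ncard) * (nb G v ⌊C * r + 3 * C⌋₊).ncard := by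
  have hfin := fun (w : V) (n : ℕ) => nb_finite hG.connected hG.locallyFinite w n
  have hH := netGraph_connected hG.connected hN hk
  obtain ⟨u0⟩ := hH.nonempty
  -- the ball of radius `1` in the net graph
  have hball : ∀ w : N, ({y : N | (netGraph G k N).dist w y ≤ 1}).Finite ∧
      ({y : N | (netGraph G k N).dist w y ≤ 1}).ncard ≤ (nb G v (2 * k)).ncard := by
    intro w
    have hmaps : ∀ y ∈ {y : N | (netGraph G k N).dist w y ≤ 1}, (y : V) ∈ nb G (w : V) (2 * k) := by
      intro y hy
      have hy : (netGraph G k N).dist w y ≤ 1 := hy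
      change G.dist (w : V) y ≤ 2 * k
      rcases Nat.le_one_iff_eq_zero_or_eq_one.1 hy with h | h
      · have := hH.dist_eq_zero_iff.1 h
        subst this
        simp
      · rw [SimpleGraph.dist_eq_one_iff_adj] at h
        exact h.2
    rw [ncard_nb_eq hG v w]
    refine ⟨?_, ?_⟩
    · exact Set.Finite.of_injOn (f := fun y : N => (y : V)) hmaps
        (Subtype.val_injective.injOn) (hfin _ _)
    · exact Set.ncard_le_ncard_of_injOn (fun y : N => (y : V)) hmaps
        (Subtype.val_injective.injOn) (hfin _ _)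
  -- a preimage near `u0`
  obtain ⟨x0, hx0⟩ := hf.dense u0
  have hx0' : (netGraph G k N).dist (f x0) u0 ≤ 1 := by
    have : ((netGraph G k N).dist (f x0) u0 : ℝ) < 2 := hx0.trans hC2
    have : (netGraph G k N).dist (f x0) u0 < 2 := by exact_mod_cast this
    omega
  -- the ball of radius `r` in the net graph
  have h1 : {y : N | (netGraph G k N).dist u0 y ≤ r} ⊆
      ⋃ x ∈ nb G x0 ⌊C * r + 3 * C⌋₊, {y : N | (netGraph G k N).dist (f x) y ≤ 1} := by
    intro y hy
    have hy : (netGraph G k N).dist u0 y ≤ r := hy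
    obtain ⟨x, hx⟩ := hf.dense y
    have hx' : (netGraph G k N).dist (f x) y ≤ 1 := by
      have : ((netGraph G k N).dist (f x) y : ℝ) < 2 := hx.trans hC2
      have : (netGraph G k N).dist (f x) y < 2 := by exact_mod_cast this
      omega
    refine Set.mem_biUnion (x := x) ?_ hx'
    change G.dist x0 x ≤ ⌊C * r + 3 * C⌋₊
    apply Nat.le_floor
    refine (hf.upper x0 x).trans ?_
    have h2 : (netGraph G k N).dist (f x0) (f x) ≤ r + 2 := by
      have h3 := hH.dist_triangle (u := f x0) (v := u0) (w := f x)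
      have h4 := hH.dist_triangle (u := u0) (v := y) (w := f x)
      rw [SimpleGraph.dist_comm (u := y) (v := f x)] at h4
      omega
    have h3 : ((netGraph G k N).dist (f x0) (f x) : ℝ) ≤ r + 2 := by exact_mod_cast h2
    nlinarith
  obtain ⟨h2, h3⟩ := ncard_biUnion_le' (hfin x0 ⌊C * r + 3 * C⌋₊)
    (fun x => {y : N | (netGraph G k N).dist (f x) y ≤ 1}) (fun x _ => hball (f x))
  have hBfin := h2.subset h1
  have h4 := (Set.ncard_le_ncard h1 h2).trans h3
  -- the ball of radius `2r` in `G`
  have h5 : nb G (u0 : V) (2 * r) ⊆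
      ⋃ n ∈ {y : N | (netGraph G k N).dist u0 y ≤ r}, nb G (n : V) (k - 1) := by
    intro x hx
    obtain ⟨n, hn, p, hp⟩ := reach hG.connected hN hk u0 r x hx
    refine Set.mem_biUnion (x := n) ?_ ?_
    · exact (SimpleGraph.dist_le p).trans hp
    · change G.dist (n : V) x ≤ k - 1
      rwa [G.dist_comm]
  obtain ⟨h6, h7⟩ := ncard_biUnion_le' hBfin (fun n : N => nb G (n : V) (k - 1))
    (m := (nb G v (k - 1)).ncard) (fun n _ => ⟨hfin _ _, (ncard_nb_eq hG _ _ _).le⟩)
  have h8 := (Set.ncard_le_ncard h5 h6).trans h7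
  rw [ncard_nb_eq hG u0 v] at h8
  rw [ncard_nb_eq hG x0 v] at h4
  calc (nb G v (2 * r)).ncard ≤
        {y : N | (netGraph G k N).dist u0 y ≤ r}.ncard * (nb G v (k - 1)).ncard := h8
    _ ≤ ((nb G v ⌊C * r + 3 * C⌋₊).ncard * (nb G v (2 * k)).ncard) *
        (nb G v (k - 1)).ncard := by gcongr
    _ = _ := by ring

/-- A volume comparison with a factor less than two yields volume doubling. -/
theorem doubling_of_step (hG : IsTransitiveGraph G) (v0 : V) {A : ℕ} {C : ℝ} (hC : 0 < C)
    (hC2 : C < 2)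
    (h : ∀ r : ℕ, (nb G v0 (2 * r)).ncard ≤ A * (nb G v0 ⌊C * r + 3 * C⌋₊).ncard) :
    VolumeDoubling G := by
  set q : ℝ := C / 2 with hq
  have hq0 : 0 < q := by positivity
  have hq1 : q < 1 := by rw [hq]; linarith
  set B : ℝ := 8 * q / (1 - q) with hB
  have hB0 : 0 < B := div_pos (by positivity) (by linarith)
  have hBq : q * B + 8 * q = B := by
    have h1q : 1 - q ≠ 0 := by linarith
    rw [hB]
    field_simp
    ring
  -- iterate
  have hiter : ∀ (j n : ℕ), (nb G v0 n).ncard ≤ A ^ j * (nb G v0 ⌊q ^ j * n + B⌋₊).ncard := by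
    intro j
    induction j with
    | zero =>
      intro n
      rw [pow_zero, pow_zero, one_mul, one_mul]
      apply ncard_nb_mono hG
      apply Nat.le_floor
      linarith
    | succ j ih =>
      intro n
      set m := ⌊q ^ j * n + B⌋₊ with hm
      have h1 : (nb G v0 m).ncard ≤ A * (nb G v0 ⌊q ^ (j + 1) * n + B⌋₊).ncard := by
        have h2 : (nb G v0 m).ncard ≤ (nb G v0 (2 * ((m + 1) / 2))).ncard :=
          ncard_nb_mono hG v0 (by omega)
        refine h2.trans ((h _).trans ?_)
        apply Nat.mul_le_mul_left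
        apply ncard_nb_mono hG
        apply Nat.floor_le_floor
        have h3 : (((m + 1) / 2 : ℕ) : ℝ) ≤ (m + 1) / 2 := by
          have : 2 * ((m + 1) / 2) ≤ m + 1 := by omega
          have : (2 : ℝ) * (((m + 1) / 2 : ℕ) : ℝ) ≤ m + 1 := by exact_mod_cast this
          linarith
        have h4 : (m : ℝ) ≤ q ^ j * n + B := Nat.floor_le (by positivity)
        have h5 : C = 2 * q := by rw [hq]; ring
        rw [h5, pow_succ]
        nlinarith
      calc (nb G v0 n).ncard ≤ A ^ j * (nb G v0 m).ncard := ih n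
        _ ≤ A ^ j * (A * (nb G v0 ⌊q ^ (j + 1) * n + B⌋₊).ncard) := by gcongr
        _ = _ := by ring
  -- choose the number of iterations
  obtain ⟨j, hj⟩ := exists_pow_lt_of_lt_one (show (0 : ℝ) < 1 / 8 by norm_num) hq1
  set s0 : ℕ := ⌈2 * (B + 1)⌉₊ with hs0
  have hs0' : 2 * (B + 1) ≤ s0 := Nat.le_ceil _
  -- doubling for natural radii
  have hnat : ∀ s : ℕ, (nb G v0 (2 * s + 1)).ncard ≤
      (A ^ j + (nb G v0 (2 * s0 + 1)).ncard) * (nb G v0 s).ncard := by
    intro s
    have hpos := ncard_nb_pos hG v0 s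
    rcases le_total s0 s with hs | hs
    · have h1 := hiter j (2 * s + 1)
      have h2 : (nb G v0 ⌊q ^ j * ((2 * s + 1 : ℕ) : ℝ) + B⌋₊).ncard ≤ (nb G v0 s).ncard := by
        apply ncard_nb_mono hG
        apply Nat.floor_le_of_le
        have h3 : (s0 : ℝ) ≤ s := by exact_mod_cast hs
        push_cast
        have h4 : q ^ j * (2 * s + 1) ≤ 1 / 8 * (2 * s + 1) := by gcongr
        linarith
      calc (nb G v0 (2 * s + 1)).ncard ≤ A ^ j * (nb G v0 s).ncard :=
            h1.trans (Nat.mul_le_mul_left _ h2)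
        _ ≤ _ := by gcongr; omega
    · have h1 : (nb G v0 (2 * s + 1)).ncard ≤ (nb G v0 (2 * s0 + 1)).ncard :=
        ncard_nb_mono hG v0 (by omega)
      nlinarith [Nat.zero_le (A ^ j)]
  refine ⟨(A ^ j + (nb G v0 (2 * s0 + 1)).ncard : ℕ), ?_, ?_⟩
  · have := ncard_nb_pos hG v0 (2 * s0 + 1)
    have : 0 < A ^ j + (nb G v0 (2 * s0 + 1)).ncard := by omega
    exact_mod_cast this
  · intro v r hr
    have hgb : ∀ t : ℝ, 0 ≤ t → gball G v t = nb G v ⌊t⌋₊ := by
      intro t ht
      ext u
      change (G.dist v u : ℝ) ≤ t ↔ G.dist v u ≤ ⌊t⌋₊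
      rw [Nat.le_floor_iff ht]
    rw [hgb r hr.le, hgb (2 * r) (by positivity)]
    refine ⟨nb_finite hG.connected hG.locallyFinite _ _, ?_⟩
    rw [ncard_nb_eq hG v v0, ncard_nb_eq hG v v0]
    have h1 : ⌊2 * r⌋₊ ≤ 2 * ⌊r⌋₊ + 1 := by
      have h2 : 2 * r < ((2 * ⌊r⌋₊ + 2 : ℕ) : ℝ) := by
        have := Nat.lt_floor_add_one r
        push_cast
        linarith
      have := (Nat.floor_lt (by positivity)).2 h2
      omega
    have h2 := (ncard_nb_mono hG v0 h1).trans (hnat ⌊r⌋₊)
    exact_mod_cast h2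

/-- **First half.** If one single net graph `G_k` of a vertex transitive graph has `C_k < 2`, the
graph has volume doubling. -/
theorem doubling_of_roughConst_lt_two (hG : IsTransitiveGraph G) {k : ℕ} (hk : 1 ≤ k) {N : Set V}
    (hN : IsNet G k N) (h : roughConst G (netGraph G k N) < 2) : VolumeDoubling G := by
  unfold roughConst at h
  simp only [iInf_lt_iff] at h
  obtain ⟨C, hC, ⟨f, hf⟩, h2⟩ := h
  have hC2 : C < 2 := by
    have : ENNReal.ofReal C < ENNReal.ofReal 2 := by simpa using h2
    exact (ENNReal.ofReal_lt_ofReal_iff (by norm_num)).1 this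
  obtain ⟨v0⟩ := hG.connected.nonempty
  exact doubling_of_step hG v0 hC hC2 fun r => volume_step hG hN hk hC hC2 hf v0 r

theorem SubScaleInvariant.doubling (hG : IsTransitiveGraph G) (h : SubScaleInvariant G) :
    VolumeDoubling G := by
  choose N hN using exists_isNet G
  have h1 := h N fun k _ => hN k
  have h2 : ∀ᶠ k in atTop, roughConst G (netGraph G k (N k)) < 2 :=
    h1.eventually_lt_const (by norm_num)
  obtain ⟨k, hk2, hk⟩ := (h2.and (eventually_ge_atTop 1)).exists
  exact doubling_of_roughConst_lt_two hG hk (hN k) hk2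

end volume

/-! ### Graphs on a line -/

section line

/-- A graph on a linear order together with its greedy forward steps. -/
structure Forward {α : Type*} [LinearOrder α] (H : SimpleGraph α) (s : α → α) : Prop where
  mono : Monotone s
  lt : ∀ x, x < s x
  le : ∀ x y, H.Adj x y → y ≤ s x
  adj : ∀ x y, x < y → y ≤ s x → H.Adj x y

variable {α : Type*} [LinearOrder α] {H : SimpleGraph α} {s : α → α}

theorem Forward.iterate_lt (hs : Forward H s) (a : α) {i j : ℕ} (h : i < j) :
    s^[i] a < s^[j] a := by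
  induction j with
  | zero => omega
  | succ j ih =>
    rw [Function.iterate_succ_apply']
    rcases Nat.lt_succ_iff_lt_or_eq.1 h with h | h
    · exact (ih h).trans (hs.lt _)
    · rw [h]; exact hs.lt _

theorem Forward.le_of_iterate_le (hs : Forward H s) (a : α) {i j : ℕ} (h : s^[i] a ≤ s^[j] a) :
    i ≤ j := by
  by_contra hcon
  exact absurd h (not_le.2 (hs.iterate_lt a (not_le.1 hcon)))

theorem Forward.walk_le (hs : Forward H s) {a b : α} (p : H.Walk a b) : b ≤ s^[p.length] a := by
  induction p with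
  | nil => simp
  | cons h p ih =>
    rw [SimpleGraph.Walk.length_cons, Function.iterate_succ_apply]
    exact ih.trans (hs.mono.iterate _ (hs.le _ _ h))

theorem Forward.adj_step (hs : Forward H s) (a : α) : H.Adj a (s a) := hs.adj _ _ (hs.lt a) le_rfl

/-- Greedy backward steps. -/
structure Backward (H : SimpleGraph α) (p : α → α) : Prop where
  mono : Monotone p
  lt : ∀ x, p x < x
  le : ∀ x y, H.Adj x y → p x ≤ y
  adj : ∀ x y, y < x → p x ≤ y → H.Adj x y

theorem Backward.iterate_lt {p : α → α} (hp : Backward H p) (a : α) {i j : ℕ} (h : i < j) :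
    p^[j] a < p^[i] a := by
  induction j with
  | zero => omega
  | succ j ih =>
    rw [Function.iterate_succ_apply']
    rcases Nat.lt_succ_iff_lt_or_eq.1 h with h | h
    · exact (hp.lt _).trans (ih h)
    · rw [h]; exact hp.lt _

theorem Backward.le_of_iterate_le {p : α → α} (hp : Backward H p) (a : α) {i j : ℕ}
    (h : p^[i] a ≤ p^[j] a) : j ≤ i := by
  by_contra hcon
  exact absurd h (not_le.2 (hp.iterate_lt a (not_le.1 hcon)))

theorem Backward.le_walk {p : α → α} (hp : Backward H p) {a b : α} (w : H.Walk a b) :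
    p^[w.length] a ≤ b := by
  induction w with
  | nil => simp
  | cons h w ih =>
    rw [SimpleGraph.Walk.length_cons, Function.iterate_succ_apply]
    exact (hp.mono.iterate _ (hp.le _ _ h)).trans ih

theorem Backward.adj_step {p : α → α} (hp : Backward H p) (a : α) : H.Adj a (p a) :=
  hp.adj _ _ (hp.lt a) le_rfl

/-- A walk that crosses `a` uses up its steps on the two sides, up to one. -/
theorem crossing {p : α → α} (hs : Forward H s) (hp : Backward H p) (a : α) {u v : α}
    (w : H.Walk u v) (hu : u ≤ a) (hv : a < v) :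
    ∃ i j : ℕ, i + j + 1 = w.length ∧ p^[i + 1] a ≤ u ∧ v ≤ s^[j + 1] a := by
  induction w with
  | nil => exact absurd hv (not_lt.2 hu)
  | @cons u u' v h w ih =>
    by_cases hu' : u' ≤ a
    · obtain ⟨i, j, h1, h2, h3⟩ := ih hu' hv
      refine ⟨i + 1, j, ?_, ?_, h3⟩
      · rw [SimpleGraph.Walk.length_cons]; omega
      · rw [Function.iterate_succ_apply']
        exact (hp.mono h2).trans (hp.le u' u h.symm)
    · push Not at hu'
      refine ⟨0, w.length, ?_, ?_, ?_⟩
      · rw [SimpleGraph.Walk.length_cons]; omega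
      · exact (hp.mono hu'.le).trans (hp.le u' u h.symm)
      · rw [Function.iterate_succ_apply]
        refine (hs.walk_le w).trans (hs.mono.iterate _ ?_)
        exact (hs.le _ _ h).trans (hs.mono hu)

/-- The two-sided greedy path. -/
def gp (s p : α → α) (a : α) : ℤ → α
  | Int.ofNat n => s^[n] a
  | Int.negSucc n => p^[n + 1] a

theorem gp_adj {p : α → α} (hs : Forward H s) (hp : Backward H p) (a : α) (x : ℤ) :
    H.Adj (gp s p a x) (gp s p a (x + 1)) := by
  rcases x with n | n
  · have : (Int.ofNat n + 1) = Int.ofNat (n + 1) := rfl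
    rw [this]
    simp only [gp]
    rw [Function.iterate_succ_apply']
    exact hs.adj_step _
  · rcases n with _ | n
    · have : (Int.negSucc 0 + 1) = Int.ofNat 0 := rfl
      rw [this]
      simp only [gp]
      exact (hp.adj_step a).symm
    · have : (Int.negSucc (n + 1) + 1) = Int.negSucc n := rfl
      rw [this]
      simp only [gp]
      rw [Function.iterate_succ_apply' p (n + 1) a]
      exact (hp.adj_step _).symm

theorem gp_dist_le {p : α → α} (hs : Forward H s) (hp : Backward H p)
    (hc : H.Connected) (a : α) (x : ℤ) (n : ℕ) : H.dist (gp s p a x) (gp s p a (x + n)) ≤ n := by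
  induction n with
  | zero => simp
  | succ n ih =>
    have h1 := hc.dist_triangle (u := gp s p a x) (v := gp s p a (x + n))
      (w := gp s p a (x + (n + 1 : ℕ)))
    have h2 : H.dist (gp s p a (x + n)) (gp s p a (x + (n + 1 : ℕ))) = 1 := by
      rw [SimpleGraph.dist_eq_one_iff_adj]
      have := gp_adj hs hp a (x + n)
      push_cast
      rwa [← add_assoc]
    omega

theorem le_gp_dist {p : α → α} (hs : Forward H s) (hp : Backward H p)
    (hc : H.Connected) (a : α) {x y : ℤ} (hxy : x ≤ y) :
    y - x ≤ H.dist (gp s p a x) (gp s p a y) + 1 := by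
  obtain ⟨w, hw⟩ := hc.exists_walk_length_eq_dist (gp s p a x) (gp s p a y)
  rw [← hw]
  clear hw
  rcases x with m | m <;> rcases y with n | n
  · have h1 : s^[n] a ≤ s^[w.length] (s^[m] a) := hs.walk_le w
    rw [← Function.iterate_add_apply] at h1
    have h2 : n ≤ w.length + m := hs.le_of_iterate_le a h1
    have e1 : Int.ofNat n = (n : ℤ) := rfl
    have e2 : Int.ofNat m = (m : ℤ) := rfl
    omega
  · exfalso
    have h1 : Int.negSucc n < 0 := Int.negSucc_lt_zero n
    have e2 : Int.ofNat m = (m : ℤ) := rfl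
    rw [e2] at hxy
    omega
  · have e1 : Int.ofNat n = (n : ℤ) := rfl
    have e2 : Int.negSucc m = -((m : ℤ) + 1) := Int.negSucc_eq m
    rcases Nat.eq_zero_or_pos n with h0 | h0
    · subst h0
      -- reverse walk from `a` back to `p^[m+1] a`
      have h1 := hp.le_walk w.reverse
      rw [SimpleGraph.Walk.length_reverse] at h1
      have h2 : m + 1 ≤ w.length := hp.le_of_iterate_le a h1
      omega
    · have hu : p^[m + 1] a ≤ a := (hp.iterate_lt a (i := 0) (j := m + 1) (by omega)).le
      have hv : a < s^[n] a := hs.iterate_lt a (i := 0) (j := n) h0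
      obtain ⟨i, j, h1, h2, h3⟩ := crossing hs hp a w hu hv
      have h4 : m + 1 ≤ i + 1 := hp.le_of_iterate_le a h2
      have h5 : n ≤ j + 1 := hs.le_of_iterate_le a h3
      omega
  · have h1' := hp.le_walk w.reverse
    rw [SimpleGraph.Walk.length_reverse] at h1'
    have h1 : p^[w.length] (p^[n + 1] a) ≤ p^[m + 1] a := h1'
    rw [← Function.iterate_add_apply] at h1
    have h2 : m + 1 ≤ w.length + (n + 1) := hp.le_of_iterate_le a h1
    have e1 : Int.negSucc n = -((n : ℤ) + 1) := Int.negSucc_eq n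
    have e2 : Int.negSucc m = -((m : ℤ) + 1) := Int.negSucc_eq m
    omega

theorem exists_near' {H : SimpleGraph α} {p : α → α} (hp : Backward H p) (a : α)
    (hunb : ∀ m : α, ∃ j : ℕ, p^[j] a < m) (m : α) (hm : m ≤ a) :
    ∃ j : ℕ, H.dist (p^[j] a) m ≤ 1 := by
  classical
  have hj := Nat.find_spec (hunb m)
  set j := Nat.find (hunb m) with hjdef
  have h0 : j ≠ 0 := by
    intro h
    rw [h] at hj
    exact absurd hm (not_le.2 (by simpa using hj))
  obtain ⟨i, hi⟩ := Nat.exists_eq_succ_of_ne_zero h0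
  have h1 : ¬ p^[i] a < m := Nat.find_min (hunb m) (by omega)
  rw [not_lt] at h1
  refine ⟨i, ?_⟩
  rcases eq_or_lt_of_le h1 with h2 | h2
  · rw [h2]; simp
  · have h3 : H.Adj (p^[i] a) m := by
      apply hp.adj _ _ h2
      rw [← Function.iterate_succ_apply' p i a]
      rw [hi] at hj
      exact hj.le
    exact (SimpleGraph.dist_eq_one_iff_adj.2 h3).le

theorem exists_near {H : SimpleGraph α} {s : α → α} (hs : Forward H s) (a : α)
    (hunb : ∀ m : α, ∃ j : ℕ, m < s^[j] a) (m : α) (hm : a ≤ m) :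
    ∃ j : ℕ, H.dist (s^[j] a) m ≤ 1 := by
  classical
  have hj := Nat.find_spec (hunb m)
  set j := Nat.find (hunb m) with hjdef
  have h0 : j ≠ 0 := by
    intro h
    rw [h] at hj
    exact absurd hm (not_le.2 (by simpa using hj))
  obtain ⟨i, hi⟩ := Nat.exists_eq_succ_of_ne_zero h0
  have h1 : ¬ m < s^[i] a := Nat.find_min (hunb m) (by omega)
  rw [not_lt] at h1
  refine ⟨i, ?_⟩
  rcases eq_or_lt_of_le h1 with h2 | h2
  · rw [h2]; simp
  · have h3 : H.Adj (s^[i] a) m := by
      apply hs.adj _ _ h2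
      rw [← Function.iterate_succ_apply' s i a]
      rw [hi] at hj
      exact hj.le
    exact (SimpleGraph.dist_eq_one_iff_adj.2 h3).le

end line

/-! ### The bi-infinite path -/

theorem zwalk (x : ℤ) (n : ℕ) : ∃ p : zGraph.Walk x (x + n), p.length = n := by
  induction n with
  | zero => exact ⟨SimpleGraph.Walk.nil.copy rfl (by simp), by simp⟩
  | succ n ih =>
    obtain ⟨p, hp⟩ := ih
    have hadj : zGraph.Adj (x + n) (x + (n + 1 : ℕ)) := by
      change |x + n - (x + (n + 1 : ℕ))| = 1
      push_cast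
      have : x + n - (x + (n + 1)) = -1 := by ring
      rw [this]
      norm_num
    exact ⟨p.append (SimpleGraph.Walk.cons hadj SimpleGraph.Walk.nil), by
      rw [SimpleGraph.Walk.length_append, hp]; simp⟩

theorem zwalk_le {x y : ℤ} (p : zGraph.Walk x y) : |x - y| ≤ p.length := by
  induction p with
  | nil => simp
  | @cons u v w h p ih =>
    rw [SimpleGraph.Walk.length_cons]
    have h1 : |u - v| = 1 := h
    have h2 := abs_sub_le u v w
    push_cast
    linarith

theorem zconnected : zGraph.Connected := by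
  refine ⟨fun x y => ?_⟩
  rcases le_total x y with h | h
  · obtain ⟨p, -⟩ := zwalk x (y - x).toNat
    have : x + ((y - x).toNat : ℤ) = y := by
      rw [Int.toNat_of_nonneg (by linarith)]; ring
    rw [this] at p
    exact ⟨p⟩
  · obtain ⟨p, -⟩ := zwalk y (x - y).toNat
    have : y + ((x - y).toNat : ℤ) = x := by
      rw [Int.toNat_of_nonneg (by linarith)]; ring
    rw [this] at p
    exact ⟨p.reverse⟩

theorem zdist_add (x : ℤ) (n : ℕ) : zGraph.dist x (x + n) = n := by
  obtain ⟨p, hp⟩ := zwalk x n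
  apply le_antisymm
  · exact (SimpleGraph.dist_le p).trans hp.le
  · obtain ⟨q, hq⟩ := zconnected.exists_walk_length_eq_dist x (x + n)
    have := zwalk_le q
    rw [hq] at this
    have h2 : |x - (x + n)| = (n : ℤ) := by
      have : x - (x + n) = -(n : ℤ) := by ring
      rw [this, abs_neg, abs_of_nonneg (by positivity)]
    rw [h2] at this
    exact_mod_cast this

theorem zdist (x y : ℤ) : (zGraph.dist x y : ℤ) = |x - y| := by
  rcases le_total x y with h | h
  · have h1 : y = x + ((y - x).toNat : ℤ) := by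
      rw [Int.toNat_of_nonneg (by linarith)]; ring
    rw [h1, zdist_add]
    have : x - (x + ((y - x).toNat : ℤ)) = -((y - x).toNat : ℤ) := by ring
    rw [this, abs_neg, abs_of_nonneg (by positivity)]
  · have h1 : x = y + ((x - y).toNat : ℤ) := by
      rw [Int.toNat_of_nonneg (by linarith)]; ring
    rw [h1, zGraph.dist_comm, zdist_add]
    have : y + ((x - y).toNat : ℤ) - y = ((x - y).toNat : ℤ) := by ring
    rw [this, abs_of_nonneg (by positivity)]

/-- Translation by `c`. -/
def ztrans (c : ℤ) : zGraph ≃g zGraph where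
  toEquiv := Equiv.addRight c
  map_rel_iff' := by
    intro a b
    change |(a + c) - (b + c)| = 1 ↔ |a - b| = 1
    rw [add_sub_add_right_eq_sub]

theorem zGraph_transitive : IsTransitiveGraph zGraph where
  infinite := inferInstance
  connected := zconnected
  locallyFinite := by
    intro v
    apply (Set.toFinite ({v - 1, v + 1} : Set ℤ)).subset
    intro u hu
    have h : |v - u| = 1 := hu
    rcases (abs_eq (by norm_num)).1 h with h | h
    · left; linarith
    · right; simp only [Set.mem_singleton_iff]; linarith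
  transitive := by
    intro u v
    refine ⟨ztrans (v - u), ?_⟩
    change u + (v - u) = v
    ring

/-- Greedy forward step in a net of the bi-infinite path. -/
theorem exists_forward {k : ℕ} (hk : 1 ≤ k) {N : Set ℤ} (hN : IsNet zGraph k N) :
    ∃ s : N → N, Forward (netGraph zGraph k N) s ∧ ∀ x : N, (x : ℤ) + 1 ≤ s x := by
  have hex : ∀ x : N, ∃ y : N, (y : ℤ) ≤ x + 2 * k ∧ ∀ z : N, (z : ℤ) ≤ x + 2 * k → z ≤ y := by
    intro x
    obtain ⟨y, ⟨hyN, hy1⟩, hy2⟩ := Int.exists_greatest_of_bdd (P := fun z => z ∈ N ∧ z ≤ x + 2 * k)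
      ⟨x + 2 * k, fun z hz => hz.2⟩ ⟨x, x.2, by omega⟩
    exact ⟨⟨y, hyN⟩, hy1, fun z hz => hy2 z ⟨z.2, hz⟩⟩
  choose s hs1 hs2 using hex
  have hlt : ∀ x : N, x < s x := by
    intro x
    obtain ⟨n, hn, hd⟩ := hN.cover hk ((x : ℤ) + k)
    have h1 : (zGraph.dist ((x : ℤ) + k) n : ℤ) < k := by exact_mod_cast hd
    rw [zdist, abs_lt] at h1
    have h2 : (⟨n, hn⟩ : N) ≤ s x := hs2 x ⟨n, hn⟩ (by simp only; linarith)
    refine lt_of_lt_of_le ?_ h2
    change (x : ℤ) < n
    linarith
  refine ⟨s, ⟨?_, hlt, ?_, ?_⟩, fun x => by have : (x : ℤ) < s x := hlt x; omega⟩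
  · intro x y hxy
    have hxy' : (x : ℤ) ≤ y := hxy
    exact hs2 y _ ((hs1 x).trans (by linarith))
  · intro x y h
    apply hs2
    have h1 : (zGraph.dist (x : ℤ) y : ℤ) ≤ 2 * k := by exact_mod_cast h.2
    rw [zdist, abs_le] at h1
    linarith
  · intro x y h1 h2
    have h1' : (x : ℤ) < y := h1
    have h2' : (y : ℤ) ≤ s x := h2
    have h3 := hs1 x
    refine ⟨zconnected.pos_dist_of_ne (ne_of_lt h1'), ?_⟩
    have h4 : (zGraph.dist (x : ℤ) y : ℤ) ≤ 2 * k := by
      rw [zdist, abs_le]
      constructor <;> linarith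
    exact_mod_cast h4

/-- Greedy backward step. -/
theorem exists_backward {k : ℕ} (hk : 1 ≤ k) {N : Set ℤ} (hN : IsNet zGraph k N) :
    ∃ p : N → N, Backward (netGraph zGraph k N) p ∧ ∀ x : N, (p x : ℤ) + 1 ≤ x := by
  have hex : ∀ x : N, ∃ y : N, (x : ℤ) - 2 * k ≤ y ∧ ∀ z : N, (x : ℤ) - 2 * k ≤ z → y ≤ z := by
    intro x
    obtain ⟨y, ⟨hyN, hy1⟩, hy2⟩ := Int.exists_least_of_bdd
      (P := fun z : ℤ => z ∈ N ∧ (x : ℤ) - 2 * k ≤ z)
      ⟨(x : ℤ) - 2 * k, fun z hz => hz.2⟩ ⟨x, x.2, by omega⟩
    exact ⟨⟨y, hyN⟩, hy1, fun z hz => hy2 z ⟨z.2, hz⟩⟩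
  choose p hp1 hp2 using hex
  have hlt : ∀ x : N, p x < x := by
    intro x
    obtain ⟨n, hn, hd⟩ := hN.cover hk ((x : ℤ) - k)
    have h1 : (zGraph.dist ((x : ℤ) - k) n : ℤ) < k := by exact_mod_cast hd
    rw [zdist, abs_lt] at h1
    have h2 : p x ≤ (⟨n, hn⟩ : N) := hp2 x ⟨n, hn⟩ (by simp only; linarith)
    refine lt_of_le_of_lt h2 ?_
    change n < (x : ℤ)
    linarith
  refine ⟨p, ⟨?_, hlt, ?_, ?_⟩, fun x => by have : (p x : ℤ) < x := hlt x; omega⟩
  · intro x y hxy
    have hxy' : (x : ℤ) ≤ y := hxy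
    exact hp2 x _ (le_trans (by linarith) (hp1 y))
  · intro x y h
    apply hp2
    have h1 : (zGraph.dist (x : ℤ) y : ℤ) ≤ 2 * k := by exact_mod_cast h.2
    rw [zdist, abs_le] at h1
    linarith
  · intro x y h1 h2
    have h1' : (y : ℤ) < x := h1
    have h2' : (p x : ℤ) ≤ y := h2
    have h3 := hp1 x
    refine ⟨zconnected.pos_dist_of_ne (ne_of_gt h1'), ?_⟩
    have h4 : (zGraph.dist (x : ℤ) y : ℤ) ≤ 2 * k := by
      rw [zdist, abs_le]
      constructor <;> linarith
    exact_mod_cast h4

/-- For every `C > 1` there is a `C`-rough isometry from the bi-infinite path to each of its net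
graphs. -/
theorem exists_rough {k : ℕ} (hk : 1 ≤ k) {N : Set ℤ} (hN : IsNet zGraph k N) :
    ∃ f : ℤ → N, ∀ C : ℝ, 1 < C → IsRoughIsometry zGraph (netGraph zGraph k N) C f := by
  obtain ⟨s, hs, hs1⟩ := exists_forward hk hN
  obtain ⟨p, hp, hp1⟩ := exists_backward hk hN
  have hc := netGraph_connected zconnected hN hk
  obtain ⟨a⟩ := hc.nonempty
  have hdist : ∀ x y : ℤ, ((netGraph zGraph k N).dist (gp s p a x) (gp s p a y) : ℝ) ≤
      zGraph.dist x y ∧ (zGraph.dist x y : ℝ) ≤
      (netGraph zGraph k N).dist (gp s p a x) (gp s p a y) + 1 := by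
    have hwlog : ∀ x y : ℤ, x ≤ y → ((netGraph zGraph k N).dist (gp s p a x) (gp s p a y) : ℝ) ≤
      zGraph.dist x y ∧ (zGraph.dist x y : ℝ) ≤
      (netGraph zGraph k N).dist (gp s p a x) (gp s p a y) + 1 := by
      intro x y hxy
      have h1 : y = x + ((y - x).toNat : ℤ) := by
        rw [Int.toNat_of_nonneg (by linarith)]; ring
      have h2 : zGraph.dist x y = (y - x).toNat := by
        nth_rw 1 [h1]
        exact zdist_add _ _
      have h3 := gp_dist_le hs hp hc a x (y - x).toNat
      rw [← h1] at h3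
      have h4 := le_gp_dist hs hp hc a hxy
      rw [h2]
      refine ⟨by exact_mod_cast h3, ?_⟩
      have h5 : (y - x).toNat ≤ (netGraph zGraph k N).dist (gp s p a x) (gp s p a y) + 1 := by
        omega
      exact_mod_cast h5
    intro x y
    rcases le_total x y with h | h
    · exact hwlog x y h
    · have := hwlog y x h
      rwa [SimpleGraph.dist_comm (u := y) (v := x),
        SimpleGraph.dist_comm (u := gp s p a y) (v := gp s p a x)] at this
  refine ⟨gp s p a, fun C hC => ⟨?_, ?_, ?_⟩⟩
  · intro x y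
    have h1 := (hdist x y).1
    have h2 : C⁻¹ ≤ 1 := inv_le_one_of_one_le₀ hC.le
    have h3 : (0 : ℝ) ≤ (netGraph zGraph k N).dist (gp s p a x) (gp s p a y) := by positivity
    have h4 : C⁻¹ * ((netGraph zGraph k N).dist (gp s p a x) (gp s p a y) : ℝ) ≤
      1 * ((netGraph zGraph k N).dist (gp s p a x) (gp s p a y) : ℝ) := by gcongr
    linarith
  · intro x y
    have h1 := (hdist x y).2
    have h3 : (0 : ℝ) ≤ (netGraph zGraph k N).dist (gp s p a x) (gp s p a y) := by positivity
    have h4 : 1 * ((netGraph zGraph k N).dist (gp s p a x) (gp s p a y) : ℝ) ≤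
      C * ((netGraph zGraph k N).dist (gp s p a x) (gp s p a y) : ℝ) := by gcongr
    linarith
  · intro m
    have hsit : ∀ j : ℕ, (a : ℤ) + j ≤ (s^[j] a : N) := by
      intro j
      induction j with
      | zero => simp
      | succ j ih =>
        rw [Function.iterate_succ_apply']
        have := hs1 (s^[j] a)
        push_cast
        linarith
    have hpit : ∀ j : ℕ, ((p^[j] a : N) : ℤ) ≤ a - j := by
      intro j
      induction j with
      | zero => simp
      | succ j ih =>
        rw [Function.iterate_succ_apply']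
        have := hp1 (p^[j] a)
        push_cast
        linarith
    have hfin : ∃ x : ℤ, (netGraph zGraph k N).dist (gp s p a x) m ≤ 1 := by
      rcases le_total a m with h | h
      · obtain ⟨j, hj⟩ := exists_near hs a (fun m => by
          refine ⟨((m : ℤ) - a + 1).toNat, ?_⟩
          change (m : ℤ) < (s^[((m : ℤ) - a + 1).toNat] a : N)
          have := hsit ((m : ℤ) - a + 1).toNat
          have := Int.self_le_toNat ((m : ℤ) - a + 1)
          linarith) m h
        exact ⟨Int.ofNat j, hj⟩
      · obtain ⟨j, hj⟩ := exists_near' hp a (fun m => by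
          refine ⟨((a : ℤ) - m + 1).toNat, ?_⟩
          change ((p^[((a : ℤ) - m + 1).toNat] a : N) : ℤ) < m
          have := hpit ((a : ℤ) - m + 1).toNat
          have := Int.self_le_toNat ((a : ℤ) - m + 1)
          linarith) m h
        rcases j with _ | j
        · exact ⟨0, hj⟩
        · exact ⟨Int.negSucc j, hj⟩
    obtain ⟨x, hx⟩ := hfin
    refine ⟨x, ?_⟩
    have : ((netGraph zGraph k N).dist (gp s p a x) m : ℝ) ≤ 1 := by exact_mod_cast hx
    linarith

/-- `C_k = 1` for every net graph of the bi-infinite path. -/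
theorem roughConst_z {k : ℕ} (hk : 1 ≤ k) {N : Set ℤ} (hN : IsNet zGraph k N) :
    roughConst zGraph (netGraph zGraph k N) = 1 := by
  apply le_antisymm
  · obtain ⟨f, hf⟩ := exists_rough hk hN
    have h1 : ∀ C : ℝ, 1 < C → roughConst zGraph (netGraph zGraph k N) ≤ ENNReal.ofReal C := by
      intro C hC
      exact iInf_le_of_le C (iInf_le_of_le (by linarith) (iInf_le_of_le ⟨f, hf C hC⟩ le_rfl))
    have h2 : Tendsto (fun C : ℝ => ENNReal.ofReal C) (𝓝[>] 1) (𝓝 (ENNReal.ofReal 1)) :=
      (ENNReal.continuous_ofReal.tendsto 1).mono_left nhdsWithin_le_nhds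
    rw [ENNReal.ofReal_one] at h2
    exact ge_of_tendsto h2 (by filter_upwards [self_mem_nhdsWithin] with C hC using h1 C hC)
  · unfold roughConst
    refine le_iInf fun C => le_iInf fun hC => le_iInf fun hex => ?_
    obtain ⟨f, hf⟩ := hex
    rw [← ENNReal.ofReal_one]
    apply ENNReal.ofReal_le_ofReal
    by_contra hcon
    push Not at hcon
    have hinv : 1 < C⁻¹ := (one_lt_inv₀ hC).2 hcon
    -- distances would be bounded
    have hbd : ∀ n : ℕ, (n : ℝ) ≤ C * (2 * C / (C⁻¹ - C)) + C := by
      intro n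
      have h1 := hf.lower 0 (0 + n)
      have h2 := hf.upper 0 (0 + n)
      rw [zdist_add] at h1 h2
      have h3 : (C⁻¹ - C) * ((netGraph zGraph k N).dist (f 0) (f (0 + n)) : ℝ) ≤ 2 * C := by
        linarith
      have h4 : 0 < C⁻¹ - C := by linarith
      have h5 : ((netGraph zGraph k N).dist (f 0) (f (0 + n)) : ℝ) ≤ 2 * C / (C⁻¹ - C) := by
        rw [le_div_iff₀ h4]
        linarith
      have h6 : C * ((netGraph zGraph k N).dist (f 0) (f (0 + n)) : ℝ) ≤
          C * (2 * C / (C⁻¹ - C)) := by gcongr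
      linarith
    obtain ⟨n, hn⟩ := exists_nat_gt (C * (2 * C / (C⁻¹ - C)) + C)
    exact absurd (hbd n) (not_le.2 hn)

theorem zGraph_subScaleInvariant : SubScaleInvariant zGraph := by
  intro N hN
  have h : (fun _ => (1 : ℝ≥0∞)) =ᶠ[atTop] fun k => roughConst zGraph (netGraph zGraph k (N k)) := by
    filter_upwards [eventually_ge_atTop 1] with k hk
    exact (roughConst_z hk (hN k hk)).symm
  exact tendsto_const_nhds.congr' h

/-- **Main result.**
(1) There is a vertex transitive (infinite, connected, locally finite) graph that is sub scale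
invariant; in fact for the bi-infinite path `C_k = 1` for every `k ≥ 1` and every `k`-net.
(2) Every sub scale invariant vertex transitive graph has volume doubling; more precisely a
vertex transitive graph has volume doubling as soon as `C_k < 2` for one single `k ≥ 1` and one
single `k`-net. -/
theorem result :
    (∃ (V : Type) (G : SimpleGraph V), IsTransitiveGraph G ∧ SubScaleInvariant G ∧
      ∀ k, 1 ≤ k → ∀ N : Set V, IsNet G k N → roughConst G (netGraph G k N) = 1) ∧
    (∀ (V : Type) (G : SimpleGraph V), IsTransitiveGraph G →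
      ((∃ k, 1 ≤ k ∧ ∃ N : Set V, IsNet G k N ∧ roughConst G (netGraph G k N) < 2) →
        VolumeDoubling G) ∧
      (SubScaleInvariant G → VolumeDoubling G)) := by
  refine ⟨⟨ℤ, zGraph, zGraph_transitive, zGraph_subScaleInvariant, fun k hk N hN =>
    roughConst_z hk hN⟩, fun V G hG => ⟨?_, fun h => SubScaleInvariant.doubling hG h⟩⟩
  rintro ⟨k, hk, N, hN, h⟩
  exact doubling_of_roughConst_lt_two hG hk hN h

end Pool.Agent.Results.MP_6f70ff_gt.SubScale
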